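import Pool.Agent.Helper80.CP.Random
import Pool.Agent.Helper11.GD.M_FAR
import Pool.Agent.Helper12.GD.Det
import Pool.Agent.Helper12.GD.Num
import Pool.Agent.Helper27.GD.M_BAL

/-!
Cutting planes refutations of random 3-CNF formulas: in a refutation with few rounding steps whose
conclusion is light, the conclusions of all the heavy rounding steps span a space of linear
dimension modulo two.
-/

set_option autoImplicit false

open Finset Filter Topology

namespace Pool.Agent.Results.MP_86d903_lc.GlobalDirections

open MP86d903 Pool.Agent.Helper82.RD Pool.Agent.Helper12.GD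

/-- For all `Δ, η > 0` there are `ε, δ > 0` such that, with probability tending to one, every
cutting planes refutation of a random formula with `⌊Δ n⌋` clauses has more than `2 ^ (δ n)`
critical division steps with a light conclusion, or the coefficient vectors modulo `2` of the
conclusions of all its critical division steps whose conclusion is not light span a space of
dimension at least `δ n`. -/
theorem result (Δ η : ℝ) (hΔ : 0 < Δ) (hη : 0 < η) :
    ∃ ε δ : ℝ, 0 < ε ∧ 0 < δ ∧ Tendsto (fun n : ℕ =>
      (Nat.card {F : Fin ⌊Δ * n⌋₊ → Clause n // ∀ π : Refutation F,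
        (2 : ℝ) ^ (δ * n) < {i | π.IsCritical ε η i ∧ IsLight ε δ (π.line i)}.ncard ∨
        δ * n ≤ Module.finrank (ZMod 2) (Submodule.span (ZMod 2)
          ((fun i v => ((π.line i).coef v : ZMod 2)) ''
            {i | π.IsCritical ε η i ∧ ¬ IsLight ε δ (π.line i)}))} : ℝ) /
        Nat.card (Fin ⌊Δ * n⌋₊ → Clause n)) atTop (𝓝 1) := by
  classical
  obtain ⟨r, hr, C, hC⟩ := exp_whp hΔ
  obtain ⟨ε, δ, D, hε, hδ, hev⟩ := num hr hη hΔ
  refine ⟨ε, δ, hε, hδ, ?_⟩
  have hlim : Tendsto (fun n : ℕ => 1 - C / (n : ℝ)) atTop (𝓝 1) := by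
    have := (tendsto_const_div_atTop_nhds_zero_nat C).const_sub 1
    simpa using this
  refine tendsto_of_tendsto_of_tendsto_of_le_of_le' hlim tendsto_const_nhds ?_ ?_
  · filter_upwards [hev, eventually_ge_atTop 3] with n hn hn3
    obtain ⟨w, t₀, s, k, ρ, M, h1, h2, h3, h4, h5, h6, h7, h8, h9, h10, h11, h12, h13⟩ := hn
    set m := ⌊Δ * n⌋₊ with hm
    set P : (Fin m → Clause n) → Prop := fun F => ∀ π : Refutation F,
        (2 : ℝ) ^ (δ * n) < {i | π.IsCritical ε η i ∧ IsLight ε δ (π.line i)}.ncard ∨
        δ * n ≤ Module.finrank (ZMod 2) (Submodule.span (ZMod 2)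
          ((fun i v => ((π.line i).coef v : ZMod 2)) ''
            {i | π.IsCritical ε η i ∧ ¬ IsLight ε δ (π.line i)})) with hP
    have hgood : ∀ F : Fin m → Clause n, Exp (vsF F) ⌊r * n⌋₊ → P F := by
      intro F hF π
      rcases det3 Pool.Agent.Helper11.GD.hFAR Pool.Agent.Helper27.GD.hBAL F hF h1 h2 h3 h4 h5 h6
        h7 h8 h9 (by omega) h10 h11 h13 π with h | h
      · exact Or.inl h
      · refine Or.inr (h12.trans ?_)
        have h14 : ((ρ + 1 : ℕ) : ℝ) ≤ (Module.finrank (ZMod 2) (SpA π ε δ η) : ℕ) :=
          Nat.cast_le.mpr h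
        push_cast at h14
        exact h14
    have hn0 : (0 : ℝ) < n := by
      have : 0 < n := by omega
      exact_mod_cast this
    have hbad := hC n m ⌊r * n⌋₊ hn3 (Nat.floor_le (by positivity))
      (Nat.floor_le (by positivity))
    have htot : 0 < Fintype.card (Fin m → Clause n) := by
      rw [Fintype.card_fun, card_clause]
      have : 0 < n.choose 3 := Nat.choose_pos hn3
      positivity
    have htot' : (0 : ℝ) < Fintype.card (Fin m → Clause n) := by exact_mod_cast htot
    rw [Nat.card_eq_fintype_card, Nat.card_eq_fintype_card, le_div_iff₀ htot',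
      Fintype.card_subtype]
    have hsplit : (univ.filter (fun F : Fin m → Clause n => Exp (vsF F) ⌊r * n⌋₊)).card +
        (univ.filter (fun F : Fin m → Clause n => ¬ Exp (vsF F) ⌊r * n⌋₊)).card =
        Fintype.card (Fin m → Clause n) := by
      rw [Finset.card_filter_add_card_filter_not, card_univ]
    have hsub : (univ.filter (fun F : Fin m → Clause n => Exp (vsF F) ⌊r * n⌋₊)).card ≤
        (univ.filter (fun F : Fin m → Clause n => P F)).card := by
      refine card_le_card ?_
      intro F hF
      exact mem_filter.mpr ⟨mem_univ _, hgood F (mem_filter.mp hF).2⟩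
    have hsplit' : ((univ.filter (fun F : Fin m → Clause n =>
        Exp (vsF F) ⌊r * n⌋₊)).card : ℝ) +
        (univ.filter (fun F : Fin m → Clause n => ¬ Exp (vsF F) ⌊r * n⌋₊)).card =
        Fintype.card (Fin m → Clause n) := by exact_mod_cast hsplit
    have hsub' : ((univ.filter (fun F : Fin m → Clause n => Exp (vsF F) ⌊r * n⌋₊)).card : ℝ) ≤
        (univ.filter (fun F : Fin m → Clause n => P F)).card := by exact_mod_cast hsub
    refine le_trans ?_ hsub'
    linarith
  · filter_upwards with n
    rw [Nat.card_eq_fintype_card, Nat.card_eq_fintype_card]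
    refine div_le_one_of_le₀ ?_ (Nat.cast_nonneg _)
    exact_mod_cast Fintype.card_subtype_le _

end Pool.Agent.Results.MP_86d903_lc.GlobalDirections
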