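import Pool.Agent.Helper80.CP.Random

/-!
Cutting planes refutations of random 3-CNF formulas: a refutation with few rounding steps whose
conclusion is light has a path with linearly many rounding steps whose conclusion is heavy.
-/

open Finset Filter Topology

namespace MP86d903

theorem numeric {r η : ℝ} (hr : 0 < r) (hη : 0 < η) :
    ∃ ε δ : ℝ, 0 < ε ∧ 0 < δ ∧ ∀ᶠ n : ℕ in atTop, ∃ w t₀ s M : ℕ,
      34 * M ≤ ⌊r * n⌋₊ ∧ t₀ + 2 * w + s + 1 ≤ M ∧ (37 * M : ℝ) ≤ η * n ∧ ε * n ≤ w ∧
      (∀ k : ℕ, ε * n ≤ k → w ≤ k) ∧ 0 < δ * n ∧ δ * n ≤ s ∧ 74 * t₀ ≤ w ∧ w ≤ n ∧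
      (2 : ℝ) ^ (δ * n) * (1 - w / (8 * n)) ^ t₀ * 2 ^ s < 2 := by
  set ε : ℝ := min (min (r / 200) (η / 400)) (1 / 4) with hε
  have hε0 : 0 < ε := by
    rw [hε]
    positivity
  have hεr : ε ≤ r / 200 := (min_le_left _ _).trans (min_le_left _ _)
  have hεη : ε ≤ η / 400 := (min_le_left _ _).trans (min_le_right _ _)
  have hε4 : ε ≤ 1 / 4 := min_le_right _ _
  refine ⟨ε, ε ^ 2 / 2400, hε0, by positivity, ?_⟩
  have hev : ∀ᶠ n : ℕ in atTop, 5 / ε + 10 / r + 400 / ε + 4 ≤ (n : ℝ) :=
    tendsto_natCast_atTop_atTop.eventually_ge_atTop _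
  filter_upwards [hev] with n hn
  have h1 : 5 / ε ≤ n := by
    have : 0 < 10 / r := by positivity
    have : 0 < 400 / ε := by positivity
    linarith
  have h2 : 10 / r ≤ n := by
    have : 0 < 5 / ε := by positivity
    have : 0 < 400 / ε := by positivity
    linarith
  have h3 : 400 / ε ≤ n := by
    have : 0 < 5 / ε := by positivity
    have : 0 < 10 / r := by positivity
    linarith
  have h4 : (4 : ℝ) ≤ n := by
    have : 0 < 5 / ε := by positivity
    have : 0 < 10 / r := by positivity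
    have : 0 < 400 / ε := by positivity
    linarith
  rw [div_le_iff₀ hε0] at h1 h3
  rw [div_le_iff₀ hr] at h2
  have hn0 : (0 : ℝ) < n := by linarith
  set δ : ℝ := ε ^ 2 / 2400 with hδ
  have hδ0 : 0 < δ * n := by positivity
  have hδε : δ * n ≤ ε * n := by
    refine mul_le_mul_of_nonneg_right ?_ hn0.le
    rw [hδ]
    nlinarith
  set w := ⌈ε * n⌉₊ with hw
  set s := ⌈δ * n⌉₊ with hs
  have hw1 : ε * n ≤ w := Nat.le_ceil _
  have hw2 : (w : ℝ) < ε * n + 1 := Nat.ceil_lt_add_one (by positivity)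
  have hs1 : δ * n ≤ s := Nat.le_ceil _
  have hs2 : (s : ℝ) < δ * n + 1 := Nat.ceil_lt_add_one hδ0.le
  set t₀ := w / 74 with ht₀
  have ht1 : 74 * t₀ ≤ w := Nat.mul_div_le w 74
  have ht2 : w < 74 * t₀ + 74 := by
    rw [ht₀]
    omega
  have ht1' : (74 * t₀ : ℝ) ≤ w := by exact_mod_cast ht1
  have ht2' : (w : ℝ) < 74 * t₀ + 74 := by exact_mod_cast ht2
  have hM : ((t₀ + 2 * w + s + 1 : ℕ) : ℝ) ≤ 5 * (ε * n) := by
    push_cast
    linarith
  refine ⟨w, t₀, s, t₀ + 2 * w + s + 1, ?_, le_rfl, ?_, hw1, ?_, hδ0, hs1, ht1, ?_, ?_⟩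
  · rw [Nat.le_floor_iff (by positivity), Nat.cast_mul]
    have h5 : ε * n ≤ r / 200 * n := mul_le_mul_of_nonneg_right hεr hn0.le
    push_cast at hM ⊢
    nlinarith
  · have h5 : ε * n ≤ η / 400 * n := mul_le_mul_of_nonneg_right hεη hn0.le
    nlinarith
  · intro k hk
    exact Nat.ceil_le.mpr hk
  · have h5 : (w : ℝ) ≤ n := by nlinarith
    exact_mod_cast h5
  · have h5 : (1 - (w : ℝ) / (8 * n)) ≤ Real.exp (-(ε / 8)) := by
      have h6 : ε / 8 ≤ (w : ℝ) / (8 * n) := by
        rw [div_le_div_iff₀ (by norm_num) (by positivity)]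
        nlinarith
      have h7 := Real.add_one_le_exp (-(ε / 8))
      linarith
    have h5' : 0 ≤ 1 - (w : ℝ) / (8 * n) := by
      rw [sub_nonneg, div_le_one (by positivity)]
      nlinarith
    have h6 : (1 - (w : ℝ) / (8 * n)) ^ t₀ ≤ Real.exp (-(ε / 8) * t₀) := by
      rw [mul_comm (-(ε / 8)) (t₀ : ℝ), Real.exp_nat_mul]
      exact pow_le_pow_left₀ h5' h5 _
    have h7 : (2 : ℝ) ^ (δ * n) ≤ Real.exp (δ * n) := by
      rw [Real.rpow_def_of_pos (by norm_num)]
      apply Real.exp_le_exp.mpr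
      have := Real.log_two_lt_d9
      nlinarith
    have h8 : (2 : ℝ) ^ s ≤ 2 * Real.exp (δ * n) := by
      rw [← Real.rpow_natCast]
      calc (2 : ℝ) ^ (s : ℝ) ≤ 2 ^ (δ * n + 1) :=
            Real.rpow_le_rpow_of_exponent_le (by norm_num) hs2.le
        _ = 2 ^ (δ * n) * 2 := by
            rw [Real.rpow_add (by norm_num), Real.rpow_one]
        _ ≤ 2 * Real.exp (δ * n) := by linarith
    calc (2 : ℝ) ^ (δ * n) * (1 - w / (8 * n)) ^ t₀ * 2 ^ s
        ≤ Real.exp (δ * n) * Real.exp (-(ε / 8) * t₀) * (2 * Real.exp (δ * n)) := by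
          gcongr
      _ = 2 * Real.exp (δ * n + -(ε / 8) * t₀ + δ * n) := by
          rw [Real.exp_add, Real.exp_add]
          ring
      _ < 2 * 1 := by
          have h9 : Real.exp (δ * n + -(ε / 8) * t₀ + δ * n) < 1 := by
            rw [Real.exp_lt_one_iff]
            have h10 : ε * n / 74 - 1 < t₀ := by
              rw [div_sub_one (by norm_num), div_lt_iff₀ (by norm_num)]
              linarith
            have h11 : ε / 8 * (ε * n / 74 - 1) ≤ ε / 8 * t₀ :=
              mul_le_mul_of_nonneg_left h10.le (by positivity)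
            have h12 : ε * 400 ≤ ε * (n * ε) := mul_le_mul_of_nonneg_left h3 hε0.le
            rw [hδ]
            nlinarith
          linarith
      _ = 2 := by norm_num

end MP86d903

namespace Pool.Agent.Results.MP_86d903_lc.HeavyRounding

open MP86d903

/-- For all `Δ, η > 0` there are `ε, δ > 0` such that, with probability tending to one, every
cutting planes refutation of a random formula with `⌊Δ n⌋` clauses has more than `2 ^ (δ n)`
critical division steps with a light conclusion, or it has a path on which there are at least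
`δ n` critical division steps whose conclusion is not light. -/
theorem result (Δ η : ℝ) (hΔ : 0 < Δ) (hη : 0 < η) :
    ∃ ε δ : ℝ, 0 < ε ∧ 0 < δ ∧ Tendsto (fun n : ℕ =>
      (Nat.card {F : Fin ⌊Δ * n⌋₊ → Clause n // ∀ π : Refutation F,
        (2 : ℝ) ^ (δ * n) < {i | π.IsCritical ε η i ∧ IsLight ε δ (π.line i)}.ncard ∨
        ∃ p, π.IsPath p ∧
          δ * n ≤ {i | i ∈ p ∧ π.IsCritical ε η i ∧ ¬ IsLight ε δ (π.line i)}.ncard} : ℝ) /
        Nat.card (Fin ⌊Δ * n⌋₊ → Clause n)) atTop (𝓝 1) := by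
  classical
  obtain ⟨r, hr, C, hC⟩ := exp_whp hΔ
  obtain ⟨ε, δ, hε, hδ, hev⟩ := numeric hr hη
  refine ⟨ε, δ, hε, hδ, ?_⟩
  have hlim : Tendsto (fun n : ℕ => 1 - C / (n : ℝ)) atTop (𝓝 1) := by
    have := (tendsto_const_div_atTop_nhds_zero_nat C).const_sub 1
    simpa using this
  refine tendsto_of_tendsto_of_tendsto_of_le_of_le' hlim tendsto_const_nhds ?_ ?_
  · filter_upwards [hev, eventually_ge_atTop 3] with n hn hn3
    obtain ⟨w, t₀, s, M, h1, h2, h3, h4, h5, h6, h7, h8, h9, h10⟩ := hn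
    set m := ⌊Δ * n⌋₊ with hm
    set P : (Fin m → Clause n) → Prop := fun F => ∀ π : Refutation F,
        (2 : ℝ) ^ (δ * n) < {i | π.IsCritical ε η i ∧ IsLight ε δ (π.line i)}.ncard ∨
        ∃ p, π.IsPath p ∧
          δ * n ≤ {i | i ∈ p ∧ π.IsCritical ε η i ∧ ¬ IsLight ε δ (π.line i)}.ncard with hP
    have hgood : ∀ F : Fin m → Clause n, Exp (vsF F) ⌊r * n⌋₊ → P F := by
      intro F hF π
      rcases det F hF h1 h2 h3 h4 h5 h6 h7 h8 h9 (by omega) h10 π with h | ⟨p, hp, h⟩
      · exact Or.inl h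
      · refine Or.inr ⟨p, hp, ?_⟩
        have h11 : ((s + 1 : ℕ) : ℝ) ≤ (hvy π ε δ η p).ncard := Nat.cast_le.mpr h
        push_cast at h11
        have h12 : {i | i ∈ p ∧ π.IsCritical ε η i ∧ ¬ IsLight ε δ (π.line i)} =
            hvy π ε δ η p := rfl
        rw [h12]
        linarith
    have hn0 : (0 : ℝ) < n := by
      have : 0 < n := by omega
      exact_mod_cast this
    have hbad := hC n m ⌊r * n⌋₊ hn3 (Nat.floor_le (by positivity))
      (Nat.floor_le (by positivity))
    have htot : 0 < Fintype.card (Fin m → Clause n) := by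
      rw [Fintype.card_fun, card_clause]
      have : 0 < n.choose 3 := Nat.choose_pos hn3
      positivity
    have htot' : (0 : ℝ) < Fintype.card (Fin m → Clause n) := by exact_mod_cast htot
    rw [Nat.card_eq_fintype_card, Nat.card_eq_fintype_card, le_div_iff₀ htot',
      Fintype.card_subtype]
    have hsplit : (univ.filter (fun F : Fin m → Clause n => Exp (vsF F) ⌊r * n⌋₊)).card +
        (univ.filter (fun F : Fin m → Clause n => ¬ Exp (vsF F) ⌊r * n⌋₊)).card =
        Fintype.card (Fin m → Clause n) := by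
      rw [Finset.card_filter_add_card_filter_not, card_univ]
    have hsub : (univ.filter (fun F : Fin m → Clause n => Exp (vsF F) ⌊r * n⌋₊)).card ≤
        (univ.filter (fun F : Fin m → Clause n => P F)).card := by
      refine card_le_card ?_
      intro F hF
      exact mem_filter.mpr ⟨mem_univ _, hgood F (mem_filter.mp hF).2⟩
    have hsplit' : ((univ.filter (fun F : Fin m → Clause n =>
        Exp (vsF F) ⌊r * n⌋₊)).card : ℝ) +
        (univ.filter (fun F : Fin m → Clause n => ¬ Exp (vsF F) ⌊r * n⌋₊)).card =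
        Fintype.card (Fin m → Clause n) := by exact_mod_cast hsplit
    have hsub' : ((univ.filter (fun F : Fin m → Clause n => Exp (vsF F) ⌊r * n⌋₊)).card : ℝ) ≤
        (univ.filter (fun F : Fin m → Clause n => P F)).card := by exact_mod_cast hsub
    refine le_trans ?_ hsub'
    linarith
  · filter_upwards with n
    rw [Nat.card_eq_fintype_card, Nat.card_eq_fintype_card]
    refine div_le_one_of_le₀ ?_ (Nat.cast_nonneg _)
    exact_mod_cast Fintype.card_subtype_le _

end Pool.Agent.Results.MP_86d903_lc.HeavyRounding
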