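import Pool.Agent.Helper3.TQ.Main
import Pool.Agent.Helper32.TP.M_EVB
import Pool.Agent.Helper54.TP.M_PB
import Pool.Agent.Helper62.TP.M_ALPHA

/-!
Cutting planes refutations of random 3-CNF formulas: the number of critical roundings with
coefficients which are not small (up to a power of `n`, outside a small set of variables) against
the numbers of uses of the lines on a path.
-/

open Finset Filter Topology
open MP86d903 (Clause Ineq Refutation IsLight)

namespace Pool.Agent.Results.MP_86d903_lc.LineUsesPoly

open Helper3.TL Helper3.TQ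

/-- For all `Δ, η > 0` there are `ε, δ > 0` and `E` such that, with probability tending to one,
the following holds for all `B ≥ 1` and all sets `Y` of at most `δ n` variables, for every cutting
planes refutation of a random 3-CNF formula with `⌊Δ n⌋` clauses in `n` variables, every `a`, and
every set `X` of fewer than `2 ^ a` of its lines which contains all critical division steps whose
conclusion is small off `Y` (up to a common factor, its coefficients outside `Y` are integers in
`[-B, B]`): there is a path of wide lines, none of which is a light line of `X`, with at least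
`δ n / B ^ E` critical division steps whose conclusion is not small off `Y`, or such that the sum
of `a` and of `min a (log₂ u)` (rounded down), over the numbers `u` of uses of the lines on the
path, is at least `δ n / B ^ E`. -/
theorem result (Δ η : ℝ) (hΔ : 0 < Δ) (hη : 0 < η) :
    ∃ (ε δ : ℝ) (E : ℕ), 0 < ε ∧ 0 < δ ∧ Tendsto (fun n : ℕ =>
      (Nat.card {F : Fin ⌊Δ * n⌋₊ → Clause n // ∀ B : ℕ, 1 ≤ B →
        ∀ Y : Set (Fin n), Y.ncard ≤ δ * n →
        ∀ (π : Refutation F) (a : ℕ) (X : Set (Fin π.size)), X.ncard < 2 ^ a →
        (∀ i, π.IsCritical ε η i → IsSmallOff B Y (π.line i) → i ∈ X) →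
        ∃ p, π.IsPath p ∧
          (∀ i ∈ p, IsWide ε (π.line i) ∧ ¬ (i ∈ X ∧ IsLight ε δ (π.line i))) ∧
          (δ * n / B ^ E ≤ a + (p.map (fun i => min a (Nat.log 2 (uses π i)))).sum ∨
            δ * n / B ^ E ≤
              {i | i ∈ p ∧ π.IsCritical ε η i ∧ ¬ IsSmallOff B Y (π.line i)}.ncard)} : ℝ) /
        Nat.card (Fin ⌊Δ * n⌋₊ → Clause n)) atTop (𝓝 1) :=
  Helper3.TQ.main Helper62.TP.hAlpha
    (Pool.Agent.Helper32.TPE.hEvB Helper3.TP.hAdj1' Helper3.TP.hAdj2' Helper69.TP.hClo3
      Helper39.TP.hConst) (Helper54.TPB.hPB Helper3.TP.hRad') Δ η hΔ hη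

end Pool.Agent.Results.MP_86d903_lc.LineUsesPoly
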